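import Pool.Agent.W990.EB.Stm

/-!
# EB-JS: the sum over quadruples is a quadratic form, sum version
-/

set_option autoImplicit false
open Finset

namespace Pool.Agent.W753.EB

open Pool.Agent.W990.EB

theorem sum_r (S : Finset ℕ) (M : ℕ) (h : ∀ n, M < n → r S n = 0) (F : ℕ → ℝ) :
    ∑ n ∈ range (M + 1), (r S n : ℝ) * F n = ∑ a ∈ S, ∑ d ∈ S, F (a + d) := by
  have hm : ∀ x ∈ S ×ˢ S, x.1 + x.2 ∈ range (M + 1) := by
    intro x hx
    rw [mem_range]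
    by_contra hc
    have h1 := h (x.1 + x.2) (by omega)
    unfold r at h1
    rw [card_eq_zero] at h1
    have h2 : x ∈ (S ×ˢ S).filter (fun y => y.1 + y.2 = x.1 + x.2) := by
      rw [mem_filter]; exact ⟨hx, rfl⟩
    rw [h1] at h2
    exact absurd h2 (notMem_empty _)
  rw [← sum_product', ← sum_fiberwise_of_maps_to hm]
  refine sum_congr rfl fun n _ => ?_
  have e : ∀ x ∈ (S ×ˢ S).filter (fun y => y.1 + y.2 = n), F (x.1 + x.2) = F n := by
    intro x hx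
    rw [(mem_filter.1 hx).2]
  rw [sum_congr rfl e, sum_const, nsmul_eq_mul]
  rfl

theorem js : S_JS := by
  intro K M S t h
  have hR : W K (range (M + 1)) (fun n : ℕ => (n : ℤ))
      (fun n : ℕ => (r S n : ℝ) * Real.exp (-(t * n))) =
      ∑ a ∈ S, ∑ d ∈ S, ∑ b ∈ S, ∑ c ∈ S, w K (((a + d : ℕ) : ℤ) - ((b + c : ℕ) : ℤ)) *
        (Real.exp (-(t * ((a + d : ℕ) : ℝ))) * Real.exp (-(t * ((b + c : ℕ) : ℝ)))) := by
    unfold W
    have e1 : ∀ i ∈ range (M + 1), ∑ j ∈ range (M + 1), w K ((i : ℤ) - (j : ℤ)) *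
        ((r S i : ℝ) * Real.exp (-(t * i)) * ((r S j : ℝ) * Real.exp (-(t * j)))) =
        (r S i : ℝ) * ∑ b ∈ S, ∑ c ∈ S, w K ((i : ℤ) - ((b + c : ℕ) : ℤ)) *
          (Real.exp (-(t * i)) * Real.exp (-(t * ((b + c : ℕ) : ℝ)))) := by
      intro i _
      rw [← sum_r S M h (fun k => w K ((i : ℤ) - (k : ℤ)) *
          (Real.exp (-(t * i)) * Real.exp (-(t * (k : ℝ))))), mul_sum]
      refine sum_congr rfl fun j _ => ?_
      ring
    rw [sum_congr rfl e1]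
    exact sum_r S M h (fun i => ∑ b ∈ S, ∑ c ∈ S, w K ((i : ℤ) - ((b + c : ℕ) : ℤ)) *
          (Real.exp (-(t * i)) * Real.exp (-(t * ((b + c : ℕ) : ℝ)))))
  rw [hR]
  unfold J
  refine sum_congr rfl fun a _ => ?_
  -- reorder b, c, d to d, b, c
  have e2 : ∑ d ∈ S, ∑ b ∈ S, ∑ c ∈ S, w K (((a + d : ℕ) : ℤ) - ((b + c : ℕ) : ℤ)) *
        (Real.exp (-(t * ((a + d : ℕ) : ℝ))) * Real.exp (-(t * ((b + c : ℕ) : ℝ)))) =
      ∑ b ∈ S, ∑ c ∈ S, ∑ d ∈ S, w K (((a + d : ℕ) : ℤ) - ((b + c : ℕ) : ℤ)) *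
        (Real.exp (-(t * ((a + d : ℕ) : ℝ))) * Real.exp (-(t * ((b + c : ℕ) : ℝ)))) := by
    rw [sum_comm]
    refine sum_congr rfl fun b _ => ?_
    rw [sum_comm]
  rw [e2]
  refine sum_congr rfl fun b _ => sum_congr rfl fun c _ => sum_congr rfl fun d _ => ?_
  rw [one_mul, ← Real.exp_add]
  congr 2
  · push_cast; ring
  · push_cast; ring

end Pool.Agent.W753.EB
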